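import Pool.Agent.W811.LW.Stm2

/-! LWB-LSEQB: levels with ratio tending to 1 and slowly growing density. -/

set_option autoImplicit false
open Finset Filter Topology

namespace Pool.Agent.W599.LW

/-- a slowly growing function below `ψ`. -/
lemma slow (ψ : ℕ → ℝ) (hψ : Tendsto ψ atTop atTop) :
    ∃ h : ℕ → ℕ, Monotone h ∧ Tendsto h atTop atTop ∧ (∀ k, h k ≤ k) ∧
      ∀ᶠ k in atTop, ((h k : ℝ) + 3) ^ 9 ≤ ψ k := by
  classical
  have hN : ∀ t : ℕ, ∃ N : ℕ, ∀ i, N ≤ i → ((t : ℝ) + 3) ^ 9 ≤ ψ i := by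
    intro t
    exact eventually_atTop.1 (hψ.eventually_ge_atTop (((t : ℝ) + 3) ^ 9))
  choose N hN using hN
  refine ⟨fun k => Nat.findGreatest (fun t => ∀ i, k ≤ i → ((t : ℝ) + 3) ^ 9 ≤ ψ i) k, ?_, ?_,
    fun k => Nat.findGreatest_le k, ?_⟩
  · intro a b hab
    exact Nat.findGreatest_mono (fun t ht i hi => ht i (hab.trans hi)) hab
  · rw [tendsto_atTop]
    intro t
    filter_upwards [eventually_ge_atTop (max t (N t))] with k hk
    exact Nat.le_findGreatest ((le_max_left _ _).trans hk)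
      (fun i hi => hN t i (((le_max_right _ _).trans hk).trans hi))
  · filter_upwards [eventually_ge_atTop (max 1 (N 1))] with k hk
    have h1 : 1 ≤ k := (le_max_left _ _).trans hk
    have h2 : ∀ i, k ≤ i → (((1 : ℕ) : ℝ) + 3) ^ 9 ≤ ψ i :=
      fun i hi => hN 1 i (((le_max_right _ _).trans hk).trans hi)
    have := Nat.findGreatest_spec (P := fun t => ∀ i, k ≤ i → ((t : ℝ) + 3) ^ 9 ≤ ψ i) h1 h2
    exact this k le_rfl

/-- the levels. -/
def Lv (θ : ℕ → ℕ) : ℕ → ℕ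
  | 0 => 1
  | k + 1 => Lv θ k + Lv θ k / θ k + 1

lemma Lv_succ (θ : ℕ → ℕ) (k : ℕ) : Lv θ (k + 1) = Lv θ k + Lv θ k / θ k + 1 := rfl

lemma Lv_lt (θ : ℕ → ℕ) (k : ℕ) : Lv θ k < Lv θ (k + 1) := by
  rw [Lv_succ]
  generalize Lv θ k / θ k = q
  omega

lemma Lv_mono (θ : ℕ → ℕ) : StrictMono (Lv θ) := strictMono_nat_of_lt_succ (Lv_lt θ)

lemma Lv_ge (θ : ℕ → ℕ) (k : ℕ) : k + 1 ≤ Lv θ k := by
  induction k with
  | zero => exact le_rfl
  | succ k ih => have := Lv_lt θ k; omega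

lemma Lv_le (θ : ℕ → ℕ) (k : ℕ) : Lv θ k + 1 ≤ 2 ^ (k + 1) := by
  induction k with
  | zero => simp [Lv]
  | succ k ih =>
    rw [Lv_succ, pow_succ]
    have := Nat.div_le_self (Lv θ k) (θ k)
    omega

lemma Lv_ratio (θ : ℕ → ℕ) (hθ : Tendsto θ atTop atTop) :
    Tendsto (fun k => (Lv θ (k + 1) : ℝ) / (Lv θ k : ℝ)) atTop (𝓝 1) := by
  have h1 : Tendsto (fun k : ℕ => 1 + (1 / (θ k : ℝ) + 1 / ((k : ℝ) + 1))) atTop (𝓝 (1 + (0 + 0))) := by
    apply Tendsto.add tendsto_const_nhds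
    apply Tendsto.add
    · exact tendsto_const_nhds.div_atTop (tendsto_natCast_atTop_atTop.comp hθ)
    · exact tendsto_one_div_add_atTop_nhds_zero_nat
  simp only [add_zero] at h1
  refine tendsto_of_tendsto_of_tendsto_of_le_of_le tendsto_const_nhds h1 ?_ ?_
  · intro k
    have hp : (0 : ℝ) < Lv θ k := by
      have := Lv_ge θ k
      exact_mod_cast (by omega : 0 < Lv θ k)
    show (1 : ℝ) ≤ _
    rw [le_div_iff₀ hp, one_mul]
    exact_mod_cast (Lv_lt θ k).le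
  · intro k
    have hge : ((k : ℝ) + 1) ≤ Lv θ k := by exact_mod_cast Lv_ge θ k
    have hk0 : (0 : ℝ) < (k : ℝ) + 1 := by positivity
    have hp : (0 : ℝ) < Lv θ k := hk0.trans_le hge
    show (Lv θ (k + 1) : ℝ) / (Lv θ k : ℝ) ≤ 1 + (1 / (θ k : ℝ) + 1 / ((k : ℝ) + 1))
    rw [Lv_succ]
    push_cast
    have e : ((Lv θ k : ℝ) + ((Lv θ k / θ k : ℕ) : ℝ) + 1) / (Lv θ k : ℝ)
        = 1 + (((Lv θ k / θ k : ℕ) : ℝ) / Lv θ k + 1 / Lv θ k) := by
      field_simp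
      ring
    rw [e]
    have h2 : ((Lv θ k / θ k : ℕ) : ℝ) / Lv θ k ≤ 1 / (θ k : ℝ) := by
      rw [div_le_iff₀ hp]
      refine (Nat.cast_div_le).trans (le_of_eq ?_)
      ring
    have h3 : 1 / (Lv θ k : ℝ) ≤ 1 / ((k : ℝ) + 1) := one_div_le_one_div_of_le hk0 hge
    linarith

/-- number of levels in a dyadic interval. -/
lemma Lv_gap (θ : ℕ → ℕ) (hθ : Monotone θ) (h1 : ∀ k, 1 ≤ θ k) (n a b : ℕ) (hab : a ≤ b)
    (hna : n ≤ Lv θ a) (hb : Lv θ b ≤ 2 * n) : b - a ≤ θ b := by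
  have key : ∀ d, a + d ≤ b → d * n ≤ (Lv θ (a + d) - Lv θ a) * θ b := by
    intro d
    induction d with
    | zero => intro _; simp
    | succ d ih =>
      intro hd
      have h3 := ih (by omega)
      have h4 : Lv θ (a + (d + 1)) = Lv θ (a + d) + Lv θ (a + d) / θ (a + d) + 1 := rfl
      have h5 : Lv θ a ≤ Lv θ (a + d) := (Lv_mono θ).monotone (by omega)
      have h6 : n ≤ (Lv θ (a + d) / θ (a + d) + 1) * θ b := by
        have h7 : n < (Lv θ (a + d) / θ (a + d) + 1) * θ (a + d) :=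
          lt_of_le_of_lt (hna.trans h5) (by
            have := Nat.lt_div_mul_add (a := Lv θ (a + d)) (h1 (a + d))
            rw [Nat.add_mul, one_mul]; exact this)
        exact h7.le.trans (Nat.mul_le_mul_left _ (hθ (by omega)))
      have h8 : Lv θ (a + (d + 1)) - Lv θ a
          = (Lv θ (a + d) - Lv θ a) + (Lv θ (a + d) / θ (a + d) + 1) := by
        rw [h4]
        generalize Lv θ (a + d) / θ (a + d) = q
        omega
      rw [h8, Nat.add_mul, Nat.add_mul, one_mul]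
      omega
  have h2 := key (b - a) (by omega)
  have h3 : a + (b - a) = b := by omega
  rw [h3] at h2
  have h4 : Lv θ b - Lv θ a ≤ n := by omega
  have h5 : (b - a) * n ≤ n * θ b := h2.trans (Nat.mul_le_mul_right _ h4)
  have hn : 0 < n := by
    rcases Nat.eq_zero_or_pos n with h | h
    · subst h
      have := Lv_ge θ b
      omega
    · exact h
  rw [Nat.mul_comm] at h5
  exact Nat.le_of_mul_le_mul_left h5 hn

/-- the density -/
def th (h : ℕ → ℕ) (k : ℕ) : ℕ := h (Nat.log 2 k / 2) + 1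

lemma th_mono {h : ℕ → ℕ} (hm : Monotone h) : Monotone (th h) := by
  intro a b hab
  exact Nat.add_le_add_right (hm (Nat.div_le_div_right (Nat.log_mono_right hab))) 1

lemma th_pos (h : ℕ → ℕ) (k : ℕ) : 1 ≤ th h k := Nat.le_add_left _ _

lemma th_tendsto {h : ℕ → ℕ} (ht : Tendsto h atTop atTop) : Tendsto (th h) atTop atTop := by
  have h1 : Tendsto (fun k : ℕ => Nat.log 2 k / 2) atTop atTop := by
    rw [tendsto_atTop]
    intro t
    filter_upwards [eventually_ge_atTop (2 ^ (2 * t))] with k hk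
    have : 2 * t ≤ Nat.log 2 k := Nat.le_log_of_pow_le (by norm_num) hk
    omega
  exact tendsto_atTop_mono (fun k => Nat.le_add_right _ 1) (ht.comp h1)

/-- the counting function -/
def ka (h : ℕ → ℕ) (n : ℕ) : ℕ := th h (2 * n) + 1

lemma ka_mono {h : ℕ → ℕ} (hm : Monotone h) : Monotone (ka h) := by
  intro a b hab
  exact Nat.add_le_add_right (th_mono hm (by omega)) 1

lemma ka_pos (h : ℕ → ℕ) (k : ℕ) : 1 ≤ ka h k := Nat.le_add_left _ _

lemma ka_L_le {h : ℕ → ℕ} (hm : Monotone h) (k : ℕ) :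
    ka h (Lv (th h) k) ≤ h ((k + 2) / 2) + 2 := by
  have h1 : Nat.log 2 (2 * Lv (th h) k) ≤ k + 2 := by
    have h2 := Lv_le (th h) k
    have h3 : 2 * Lv (th h) k ≤ 2 ^ (k + 2) := by
      rw [pow_succ]
      omega
    calc Nat.log 2 (2 * Lv (th h) k) ≤ Nat.log 2 (2 ^ (k + 2)) := Nat.log_mono_right h3
      _ = k + 2 := Nat.log_pow (by norm_num) _
  have h4 := hm (Nat.div_le_div_right (c := 2) h1)
  show h (Nat.log 2 (2 * Lv (th h) k) / 2) + 1 + 1 ≤ h ((k + 2) / 2) + 2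
  omega

lemma ka_L_shift {h : ℕ → ℕ} (hm : Monotone h) (k0 k : ℕ) (hk : k0 + 2 ≤ k) :
    ka h (Lv (th h) (k + k0)) ≤ h k + 2 := by
  refine (ka_L_le hm (k + k0)).trans (Nat.add_le_add_right (hm ?_) 2)
  omega

lemma ka_L_le' {h : ℕ → ℕ} (hm : Monotone h) (hk : ∀ k, h k ≤ k) (k : ℕ) :
    ka h (Lv (th h) k) ≤ k + 3 := by
  have := ka_L_le hm k
  have := hk ((k + 2) / 2)
  omega

lemma psi_bound {h : ℕ → ℕ} (hm : Monotone h) (ht : Tendsto h atTop atTop) {ψ : ℕ → ℝ}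
    (hψ : ∀ᶠ k in atTop, ((h k : ℝ) + 3) ^ 9 ≤ ψ k) (C : ℝ) (k0 : ℕ) :
    ∀ᶠ k in atTop, C * (ka h (Lv (th h) (k + k0)) : ℝ) ^ 4 ≤ ψ k := by
  have h1 : ∀ᶠ k in atTop, |C| ≤ (h k : ℝ) :=
    (tendsto_natCast_atTop_atTop.comp ht).eventually_ge_atTop |C|
  filter_upwards [hψ, h1, eventually_ge_atTop (k0 + 2)] with k ha hb hc
  refine le_trans ?_ ha
  have h2 : (ka h (Lv (th h) (k + k0)) : ℝ) ≤ (h k : ℝ) + 3 := by
    have := ka_L_shift hm k0 k hc
    have h3 : (ka h (Lv (th h) (k + k0)) : ℝ) ≤ (h k : ℝ) + 2 := by exact_mod_cast this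
    linarith
  have h0 : (0 : ℝ) ≤ (ka h (Lv (th h) (k + k0)) : ℝ) := Nat.cast_nonneg _
  have hh : (0 : ℝ) ≤ (h k : ℝ) := Nat.cast_nonneg _
  have h4 : (ka h (Lv (th h) (k + k0)) : ℝ) ^ 4 ≤ ((h k : ℝ) + 3) ^ 4 :=
    pow_le_pow_left₀ h0 h2 4
  have h5 : C ≤ ((h k : ℝ) + 3) ^ 5 := by
    have h6 : C ≤ (h k : ℝ) + 3 := (le_abs_self C).trans (by linarith)
    refine h6.trans ?_
    have h7 : ((h k : ℝ) + 3) ^ 1 ≤ ((h k : ℝ) + 3) ^ 5 :=
      pow_le_pow_right₀ (by linarith) (by norm_num)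
    simpa using h7
  calc C * (ka h (Lv (th h) (k + k0)) : ℝ) ^ 4
      ≤ ((h k : ℝ) + 3) ^ 5 * (ka h (Lv (th h) (k + k0)) : ℝ) ^ 4 :=
        mul_le_mul_of_nonneg_right h5 (by positivity)
    _ ≤ ((h k : ℝ) + 3) ^ 5 * ((h k : ℝ) + 3) ^ 4 :=
        mul_le_mul_of_nonneg_left h4 (by positivity)
    _ = ((h k : ℝ) + 3) ^ 9 := by ring

lemma log_ka {h : ℕ → ℕ} (hm : Monotone h) (hk : ∀ k, h k ≤ k) :
    Tendsto (fun k => Real.log (ka h (Lv (th h) k) : ℝ) / (Lv (th h) k : ℝ)) atTop (𝓝 0) := by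
  have h1 : Tendsto (fun k : ℕ => Real.log ((k : ℝ) + 3) / ((k : ℝ) + 1)) atTop (𝓝 0) := by
    have h2 : Tendsto (fun x : ℝ => Real.log x / (x - 2)) atTop (𝓝 0) := by
      have := Real.tendsto_pow_log_div_mul_add_atTop 1 (-2) 1 one_ne_zero
      refine this.congr (fun x => ?_)
      rw [pow_one]
      congr 1
      ring
    have h3 : Tendsto (fun k : ℕ => (k : ℝ) + 3) atTop atTop :=
      tendsto_atTop_add_const_right _ _ tendsto_natCast_atTop_atTop
    refine (h2.comp h3).congr (fun k => ?_)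
    show Real.log ((k : ℝ) + 3) / ((k : ℝ) + 3 - 2) = _
    congr 1
    ring
  refine tendsto_of_tendsto_of_tendsto_of_le_of_le tendsto_const_nhds h1 ?_ ?_
  · intro k
    have h2 : (1 : ℝ) ≤ (ka h (Lv (th h) k) : ℝ) := by exact_mod_cast ka_pos h _
    exact div_nonneg (Real.log_nonneg h2) (Nat.cast_nonneg _)
  · intro k
    have h2 : (1 : ℝ) ≤ (ka h (Lv (th h) k) : ℝ) := by exact_mod_cast ka_pos h _
    have h3 : (ka h (Lv (th h) k) : ℝ) ≤ (k : ℝ) + 3 := by exact_mod_cast ka_L_le' hm hk k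
    have h4 : ((k : ℝ) + 1) ≤ (Lv (th h) k : ℝ) := by exact_mod_cast Lv_ge (th h) k
    have h5 : Real.log (ka h (Lv (th h) k) : ℝ) ≤ Real.log ((k : ℝ) + 3) :=
      Real.log_le_log (by linarith) h3
    exact div_le_div₀ (Real.log_nonneg (by have : (0 : ℝ) ≤ k := Nat.cast_nonneg k; linarith)) h5 (by positivity) h4

/-- number of levels -/
lemma ka_count {h : ℕ → ℕ} (hm : Monotone h) (n : ℕ) (s : Finset ℕ)
    (hs : ∀ k ∈ s, n ≤ Lv (th h) k ∧ Lv (th h) k ≤ 2 * n) : s.card ≤ ka h n := by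
  rcases s.eq_empty_or_nonempty with h0 | h0
  · subst h0; simp
  · have ha := s.min'_mem h0
    have hb := s.max'_mem h0
    have hab : s.min' h0 ≤ s.max' h0 := s.min'_le _ hb
    have h1 := Lv_gap (th h) (th_mono hm) (th_pos h) n _ _ hab (hs _ ha).1 (hs _ hb).2
    have h2 : th h (s.max' h0) ≤ th h (2 * n) := by
      apply th_mono hm
      have := Lv_ge (th h) (s.max' h0)
      have := (hs _ hb).2
      omega
    have h3 : s ⊆ Finset.Icc (s.min' h0) (s.max' h0) := by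
      intro k hk
      rw [Finset.mem_Icc]
      exact ⟨s.min'_le _ hk, s.le_max' _ hk⟩
    have h4 := Finset.card_le_card h3
    rw [Nat.card_Icc] at h4
    unfold ka
    omega

open Pool.Agent.W811.LW in
theorem lseqb : LSEQB := by
  intro ψ hψ
  obtain ⟨h, hm, ht, hk, hb⟩ := slow ψ hψ
  refine ⟨Lv (th h), fun n => (ka h n : ℝ), Lv_mono _, ?_, ?_, ?_, Lv_ratio _ (th_tendsto ht),
    log_ka hm hk, psi_bound hm ht hb⟩
  · intro a b hab
    exact Nat.cast_le.2 (ka_mono hm hab)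
  · intro n
    show (1 : ℝ) ≤ (ka h n : ℝ)
    exact_mod_cast ka_pos h n
  · intro n s hs
    show (s.card : ℝ) ≤ (ka h n : ℝ)
    exact_mod_cast ka_count hm n s hs

end Pool.Agent.W599.LW
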